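import Pool.Agent.Helper32.TV2.Defs

/-!
# Two equivalence relations code the square grids

`R 0`: same row; `R 1`: same column; marks `(i, i)` and `(i, i + 1)`.
-/

set_option autoImplicit false

namespace Pool.Agent.Helper20.TV2

open Pool.Agent.Helper20.Spectra Pool.Agent.Helper20.OP Pool.Agent.Helper20.EX2
open Pool.Agent.Helper32.TV2

/-- one step to the right -/
def eeH (V : Type) (R : Str (2 + 2) V) (x y : V) : Prop :=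
  R 0 x y ∧ ∃ a b, R 1 x a ∧ R 3 a a ∧ R 2 b b ∧ R 0 a b ∧ R 1 b y

/-- one step up -/
def eeU (V : Type) (R : Str (2 + 2) V) (x y : V) : Prop :=
  R 1 x y ∧ ∃ b a, R 0 x b ∧ R 2 b b ∧ R 1 b a ∧ R 3 a a ∧ R 0 a y

/-- the coding -/
def codeEE : Coding 2 2 where
  dom := fun _ _ _ => True
  h := eeH
  u := eeU
  ax := fun _ _ => True
  md_dom := MDef.const True
  md_h := (MDef.rel 0 0 1).and (MDef.ex (P := fun _ R v _ a => ∃ b, R 1 (v 0) a ∧ R 3 a a ∧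
      R 2 b b ∧ R 0 a b ∧ R 1 b (v 1))
    (MDef.ex (P := fun _ R v _ b => R 1 (v 1) (v 0) ∧ R 3 (v 0) (v 0) ∧
      R 2 b b ∧ R 0 (v 0) b ∧ R 1 b (v 2))
      ((MDef.rel 1 2 1).and ((MDef.rel 3 1 1).and ((MDef.rel 2 0 0).and
        ((MDef.rel 0 1 0).and (MDef.rel 1 0 3)))))))
  md_u := (MDef.rel 1 0 1).and (MDef.ex (P := fun _ R v _ b => ∃ a, R 0 (v 0) b ∧ R 2 b b ∧
      R 1 b a ∧ R 3 a a ∧ R 0 a (v 1))
    (MDef.ex (P := fun _ R v _ a => R 0 (v 1) (v 0) ∧ R 2 (v 0) (v 0) ∧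
      R 1 (v 0) a ∧ R 3 a a ∧ R 0 a (v 2))
      ((MDef.rel 0 2 1).and ((MDef.rel 2 1 1).and ((MDef.rel 1 1 0).and
        ((MDef.rel 3 0 0).and (MDef.rel 0 0 3)))))))
  md_ax := MDef.const True
  c := 1
  hc := le_rfl
  size := fun V _ R _ => by
    rw [one_mul]
    exact (Nat.card_congr (Equiv.subtypeUnivEquiv (fun _ => trivial))).symm

/-- same row, same column -/
def eeR (n : ℕ) (i : Fin 2) (x y : Fin n × Fin n) : Prop :=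
  if i = 0 then (x.2 : ℕ) = y.2 else (x.1 : ℕ) = y.1

/-- the two diagonals -/
def eeS (n : ℕ) (i : Fin 2) : Set (Fin n × Fin n) :=
  {x | if i = 0 then (x.1 : ℕ) = x.2 else (x.1 : ℕ) + 1 = x.2}

theorem t_EE : StmtEE := by
  refine ⟨2, codeEE, fun n hn => ⟨Fin n × Fin n, inferInstance, eeR n, eeS n, ⟨?_, ?_⟩, trivial,
    Equiv.subtypeUnivEquiv (fun _ => trivial), ?_, ?_⟩⟩
  · exact ⟨fun _ => rfl, fun h => Eq.symm h, fun h h' => Eq.trans h h'⟩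
  · exact ⟨fun _ => rfl, fun h => Eq.symm h, fun h h' => Eq.trans h h'⟩
  · intro x y
    have e0 : ∀ a b, mkM 2 (eeR n) (eeS n) 0 a b ↔ (a.2 : ℕ) = b.2 := fun a b => Iff.rfl
    have e1 : ∀ a b, mkM 2 (eeR n) (eeS n) 1 a b ↔ (a.1 : ℕ) = b.1 := fun a b => Iff.rfl
    have e2 : ∀ a, mkM 2 (eeR n) (eeS n) 2 a a ↔ (a.1 : ℕ) = a.2 := fun a =>
      (mkM_mark (eeR n) (eeS n) 0 a a).trans ⟨fun h => h.2, fun h => ⟨rfl, h⟩⟩
    have e3 : ∀ a, mkM 2 (eeR n) (eeS n) 3 a a ↔ (a.1 : ℕ) + 1 = a.2 := fun a =>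
      (mkM_mark (eeR n) (eeS n) 1 a a).trans ⟨fun h => h.2, fun h => ⟨rfl, h⟩⟩
    show eeH _ _ x.1 y.1 ↔ gh n x.1 y.1
    constructor
    · rintro ⟨h1, a, b, h2, h3, h4, h5, h6⟩
      rw [e0] at h1 h5
      rw [e1] at h2 h6
      rw [e3] at h3
      rw [e2] at h4
      exact ⟨by omega, h1⟩
    · rintro ⟨h1, h2⟩
      refine ⟨(e0 _ _).2 h2, (x.1.1, ⟨(x.1.1 : ℕ) + 1, by have := y.1.1.is_lt; omega⟩),
        (y.1.1, y.1.1), (e1 _ _).2 rfl, (e3 _).2 rfl, (e2 _).2 rfl, (e0 _ _).2 h1, (e1 _ _).2 rfl⟩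
  · intro x y
    have e0 : ∀ a b, mkM 2 (eeR n) (eeS n) 0 a b ↔ (a.2 : ℕ) = b.2 := fun a b => Iff.rfl
    have e1 : ∀ a b, mkM 2 (eeR n) (eeS n) 1 a b ↔ (a.1 : ℕ) = b.1 := fun a b => Iff.rfl
    have e2 : ∀ a, mkM 2 (eeR n) (eeS n) 2 a a ↔ (a.1 : ℕ) = a.2 := fun a =>
      (mkM_mark (eeR n) (eeS n) 0 a a).trans ⟨fun h => h.2, fun h => ⟨rfl, h⟩⟩
    have e3 : ∀ a, mkM 2 (eeR n) (eeS n) 3 a a ↔ (a.1 : ℕ) + 1 = a.2 := fun a =>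
      (mkM_mark (eeR n) (eeS n) 1 a a).trans ⟨fun h => h.2, fun h => ⟨rfl, h⟩⟩
    show eeU _ _ x.1 y.1 ↔ gu n x.1 y.1
    constructor
    · rintro ⟨h1, b, a, h2, h3, h4, h5, h6⟩
      rw [e1] at h1 h4
      rw [e0] at h2 h6
      rw [e2] at h3
      rw [e3] at h5
      exact ⟨h1, by omega⟩
    · rintro ⟨h1, h2⟩
      refine ⟨(e1 _ _).2 h1, (x.1.2, x.1.2), (x.1.2, y.1.2), (e0 _ _).2 rfl, (e2 _).2 rfl,
        (e1 _ _).2 rfl, (e3 _).2 h2, (e0 _ _).2 rfl⟩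

end Pool.Agent.Helper20.TV2
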