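import Pool.Agent.Helper32.TV2.Defs

/-!
# Partial orders of width `2` code the square grids

Two chains `a i`, `b i`, `i < n * n`, with `b j < a i` iff `j ≤ i` and `a i < b j` iff `i + n ≤ j`; marks
on the `a i` and on the ends of the rows.
-/

set_option autoImplicit false

namespace Pool.Agent.Helper20.TV2

open Pool.Agent.Helper20.Spectra Pool.Agent.Helper20.OP Pool.Agent.Helper20.EX2
open Pool.Agent.Helper29.C2 (POrdW POrd)
open Pool.Agent.Helper32.TV2

section defs

variable (V : Type) (R : Str (1 + 2) V)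

/-- below -/
def wL (x y : V) : Prop := R 0 x y ∧ x ≠ y

/-- marked -/
def wA (x : V) : Prop := R 1 x x

/-- the next marked element -/
def wH (x y : V) : Prop := wA V R x ∧ wA V R y ∧ ¬ R 2 x x ∧ wL V R x y ∧
  ∀ z, wA V R z → wL V R x z → ¬ wL V R z y

/-- the least unmarked element above -/
def wUp (x z : V) : Prop := ¬ wA V R z ∧ wL V R x z ∧ ∀ w, ¬ wA V R w → wL V R x w → ¬ wL V R w z

/-- the least marked element above -/
def wDn (z y : V) : Prop := wA V R y ∧ wL V R z y ∧ ∀ w, wA V R w → wL V R z w → ¬ wL V R w y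

/-- one step up in the grid -/
def wU (x y : V) : Prop := wA V R x ∧ ∃ z, wUp V R x z ∧ wDn V R z y

/-- the greatest unmarked element below -/
def wP (x y : V) : Prop := wA V R x ∧ ¬ wA V R y ∧ wL V R y x ∧
  ∀ w, ¬ wA V R w → wL V R y w → ¬ wL V R w x

/-- the last relation is a bijection -/
def wAx : Prop := (∀ x, wA V R x → ∃ y, wP V R x y ∧ ∀ z, wP V R x z → z = y) ∧
  ∀ y, ¬ wA V R y → ∃ x, wP V R x y ∧ ∀ z, wP V R z y → z = x

end defs

lemma md_wL {m : ℕ} : MDef 3 2 m (fun V R v _ => wL V R (v 0) (v 1)) :=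
  (MDef.rel 0 0 1).and (MDef.eq 0 1).not

lemma md_wA : MD 3 1 (fun V R v => wA V R (v 0)) := MDef.rel 1 0 0

lemma md_wL' : MD 3 2 (fun V R v => wL V R (v 0) (v 1)) := md_wL

lemma md_wH : MD 3 2 (fun V R v => wH V R (v 0) (v 1)) :=
  (md_wA.app ![0]).and ((md_wA.app ![1]).and ((MDef.rel 2 0 0).not.and (md_wL.and
    (MDef.all (P := fun V R v _ z => wA V R z → wL V R (v 0) z → ¬ wL V R z (v 1))
      ((md_wA.app ![0]).imp ((md_wL'.app ![1, 0]).imp (md_wL'.app ![0, 2]).not))))))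

lemma md_wUp : MD 3 2 (fun V R v => wUp V R (v 0) (v 1)) :=
  (md_wA.app ![1]).not.and (md_wL.and
    (MDef.all (P := fun V R v _ w => ¬ wA V R w → wL V R (v 0) w → ¬ wL V R w (v 1))
      ((md_wA.app ![0]).not.imp ((md_wL'.app ![1, 0]).imp (md_wL'.app ![0, 2]).not))))

lemma md_wDn : MD 3 2 (fun V R v => wDn V R (v 0) (v 1)) :=
  (md_wA.app ![1]).and (md_wL.and
    (MDef.all (P := fun V R v _ w => wA V R w → wL V R (v 0) w → ¬ wL V R w (v 1))
      ((md_wA.app ![0]).imp ((md_wL'.app ![1, 0]).imp (md_wL'.app ![0, 2]).not))))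

lemma md_wU : MD 3 2 (fun V R v => wU V R (v 0) (v 1)) :=
  (md_wA.app ![0]).and (MDef.ex (P := fun V R v _ z => wUp V R (v 0) z ∧ wDn V R z (v 1))
    ((md_wUp.app ![1, 0]).and (md_wDn.app ![0, 2])))

lemma md_wP : MD 3 2 (fun V R v => wP V R (v 0) (v 1)) :=
  (md_wA.app ![0]).and ((md_wA.app ![1]).not.and ((md_wL'.app ![1, 0]).and
    (MDef.all (P := fun V R v _ w => ¬ wA V R w → wL V R (v 1) w → ¬ wL V R w (v 0))
      ((md_wA.app ![0]).not.imp ((md_wL'.app ![2, 0]).imp (md_wL'.app ![0, 1]).not)))))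

lemma md_wAx : MD 3 0 (fun V R _ => wAx V R) := by
  refine MDef.and ?_ ?_
  · refine MDef.all (P := fun V R _ _ x => wA V R x → ∃ y, wP V R x y ∧ ∀ z, wP V R x z → z = y)
      ((md_wA.app ![0]).imp ?_)
    refine MDef.ex (P := fun V R v _ y => wP V R (v 0) y ∧ ∀ z, wP V R (v 0) z → z = y)
      ((md_wP.app ![1, 0]).and ?_)
    exact MDef.all (P := fun V R v _ z => wP V R (v 1) z → z = v 0)
      ((md_wP.app ![2, 0]).imp (MDef.eq 0 1))
  · refine MDef.all (P := fun V R _ _ y => ¬ wA V R y → ∃ x, wP V R x y ∧ ∀ z, wP V R z y → z = x)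
      ((md_wA.app ![0]).not.imp ?_)
    refine MDef.ex (P := fun V R v _ x => wP V R x (v 0) ∧ ∀ z, wP V R z (v 0) → z = x)
      ((md_wP.app ![0, 1]).and ?_)
    exact MDef.all (P := fun V R v _ z => wP V R z (v 1) → z = v 0)
      ((md_wP.app ![0, 2]).imp (MDef.eq 0 1))

lemma w_size (V : Type) [Finite V] (R : Str (1 + 2) V) (h : wAx V R) :
    Nat.card V = 2 * Nat.card {x // wA V R x} := by
  classical
  obtain ⟨h1, h2⟩ := h
  choose f hf hf' using h1
  have hA : ∀ x (hx : wA V R x), ¬ wA V R (f x hx) := fun x hx => (hf x hx).2.1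
  let F : {x // wA V R x} → {x // ¬ wA V R x} := fun x => ⟨f x.1 x.2, hA x.1 x.2⟩
  have hF : Function.Bijective F := by
    constructor
    · intro x y hxy
      have e : f x.1 x.2 = f y.1 y.2 := congrArg Subtype.val hxy
      obtain ⟨z, _, hz⟩ := h2 (f x.1 x.2) (hA _ _)
      have a := hz _ (hf x.1 x.2)
      have b := hz y.1 (by rw [e]; exact hf y.1 y.2)
      exact Subtype.ext (a.trans b.symm)
    · intro y
      obtain ⟨x, hx, _⟩ := h2 y.1 y.2
      exact ⟨⟨x, hx.1⟩, Subtype.ext (hf' x hx.1 y.1 hx).symm⟩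
  have e1 := Nat.card_congr (Equiv.ofBijective F hF)
  have e2 : Nat.card V = Nat.card {x // wA V R x} + Nat.card {x // ¬ wA V R x} := by
    rw [← Nat.card_sum]
    exact Nat.card_congr (Equiv.sumCompl (wA V R)).symm
  rw [e2, ← e1]
  omega

/-- the coding -/
def codeW2 : Coding 1 2 where
  dom := wA
  h := wH
  u := wU
  ax := wAx
  md_dom := md_wA
  md_h := md_wH
  md_u := md_wU
  md_ax := md_wAx
  c := 2
  hc := by omega
  size := fun V _ R h => w_size V R h

section model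

variable (n : ℕ)

/-- the order -/
def w2L (x y : Bool × Fin (n * n)) : Prop :=
  if x.1 = y.1 then (x.2 : ℕ) < y.2 else if x.1 = true then (x.2 : ℕ) + n ≤ y.2 else
    (x.2 : ℕ) ≤ y.2

/-- the marks -/
def w2S (s : Fin 2) : Set (Bool × Fin (n * n)) :=
  {x | x.1 = true ∧ (s = 1 → ((x.2 : ℕ) + 1) % n = 0)}

lemma w2L_tt (i j : Fin (n * n)) : w2L n (true, i) (true, j) ↔ (i : ℕ) < j := by
  simp [w2L]

lemma w2L_ff (i j : Fin (n * n)) : w2L n (false, i) (false, j) ↔ (i : ℕ) < j := by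
  simp [w2L]

lemma w2L_tf (i j : Fin (n * n)) : w2L n (true, i) (false, j) ↔ (i : ℕ) + n ≤ j := by
  simp [w2L]

lemma w2L_ft (i j : Fin (n * n)) : w2L n (false, i) (true, j) ↔ (i : ℕ) ≤ j := by
  simp [w2L]

lemma w2L_irr (x : Bool × Fin (n * n)) : ¬ w2L n x x := by
  simp [w2L]

lemma w2L_trans (hn : 1 ≤ n) (x y z : Bool × Fin (n * n)) (h : w2L n x y) (h' : w2L n y z) :
    w2L n x z := by
  obtain ⟨b, i⟩ := x
  obtain ⟨c, j⟩ := y
  obtain ⟨d, k⟩ := z
  cases b <;> cases c <;> cases d <;>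
    simp only [w2L_tt, w2L_ff, w2L_tf, w2L_ft] at h h' ⊢ <;> omega

lemma w2L_width (v : Fin (2 + 1) → Bool × Fin (n * n)) (hv : Function.Injective v) :
    ∃ i j, w2L n (v i) (v j) := by
  have key : ∀ i j : Fin (2 + 1), i ≠ j → (v i).1 = (v j).1 → ∃ i j, w2L n (v i) (v j) := by
    intro i j hij hb
    have hne : ((v i).2 : ℕ) ≠ (v j).2 := by
      intro h
      exact hij (hv (Prod.ext hb (Fin.ext h)))
    rcases lt_or_gt_of_ne hne with h | h
    · exact ⟨i, j, by rw [w2L, if_pos hb]; exact h⟩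
    · exact ⟨j, i, by rw [w2L, if_pos hb.symm]; exact h⟩
  rcases Bool.eq_false_or_eq_true (v 0).1 with h0 | h0 <;>
    rcases Bool.eq_false_or_eq_true (v 1).1 with h1 | h1 <;>
      rcases Bool.eq_false_or_eq_true (v 2).1 with h2 | h2
  · exact key 0 1 (by decide) (h0.trans h1.symm)
  · exact key 0 1 (by decide) (h0.trans h1.symm)
  · exact key 0 2 (by decide) (h0.trans h2.symm)
  · exact key 1 2 (by decide) (h1.trans h2.symm)
  · exact key 1 2 (by decide) (h1.trans h2.symm)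
  · exact key 0 2 (by decide) (h0.trans h2.symm)
  · exact key 0 1 (by decide) (h0.trans h1.symm)
  · exact key 0 1 (by decide) (h0.trans h1.symm)

end model

/-- the model codes the grid -/
theorem codes_w2 (n : ℕ) (hn : 1 ≤ n)
    (R : Fin 1 → Bool × Fin (n * n) → Bool × Fin (n * n) → Prop)
    (hR : ∀ x y, (R 0 x y ∧ x ≠ y) ↔ w2L n x y) :
    codeW2.Codes n (Bool × Fin (n * n)) R (w2S n) := by
  have hn0 : 0 < n := hn
  have eL : ∀ x y, wL _ (mkM 2 R (w2S n)) x y ↔ w2L n x y := hR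
  have eA : ∀ x, wA _ (mkM 2 R (w2S n)) x ↔ x.1 = true := fun x =>
    (mkM_mark R (w2S n) 0 x x).trans ⟨fun h => h.2.1, fun h => ⟨rfl, h, fun h' => by
      exact absurd h' (by decide)⟩⟩
  have eE : ∀ x, mkM 2 R (w2S n) 2 x x ↔ x.1 = true ∧ ((x.2 : ℕ) + 1) % n = 0 := fun x =>
    (mkM_mark R (w2S n) 1 x x).trans ⟨fun h => ⟨h.2.1, h.2.2 rfl⟩, fun h => ⟨rfl, h.1, fun _ => h.2⟩⟩
  have eH : ∀ i j : Fin (n * n), wH _ (mkM 2 R (w2S n)) (true, i) (true, j) ↔
      (i : ℕ) + 1 = j ∧ ((i : ℕ) + 1) % n ≠ 0 := by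
    intro i j
    unfold wH
    rw [eA, eA, eE, eL, w2L_tt]
    constructor
    · rintro ⟨_, _, h1, h2, h3⟩
      refine ⟨?_, fun h => h1 ⟨rfl, h⟩⟩
      by_contra h4
      have hj := j.is_lt
      have h5 := h3 (true, ⟨(i : ℕ) + 1, by omega⟩) ((eA _).2 rfl)
        ((eL _ _).2 ((w2L_tt n _ _).2 (Nat.lt_succ_self _)))
      rw [eL, w2L_tt] at h5
      apply h5
      show (i : ℕ) + 1 < j
      omega
    · rintro ⟨h1, h2⟩
      refine ⟨rfl, rfl, fun h => h2 h.2, by omega, ?_⟩
      rintro ⟨b, k⟩ hz h3 h4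
      have hb : b = true := (eA _).1 hz
      subst hb
      rw [eL, w2L_tt] at h3 h4
      omega
  have eUp : ∀ (i : Fin (n * n)) (z : Bool × Fin (n * n)),
      wUp _ (mkM 2 R (w2S n)) (true, i) z ↔ z.1 = false ∧ (i : ℕ) + n = z.2 := by
    rintro i ⟨b, j⟩
    unfold wUp
    rw [eA, eL]
    constructor
    · rintro ⟨h1, h2, h3⟩
      have hb : b = false := by
        cases b
        · rfl
        · exact absurd rfl h1
      subst hb
      rw [w2L_tf] at h2
      refine ⟨rfl, ?_⟩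
      by_contra h4
      have hj := j.is_lt
      have h5 := h3 (false, ⟨(i : ℕ) + n, by omega⟩) (by rw [eA]; simp)
        ((eL _ _).2 ((w2L_tf n _ _).2 le_rfl))
      rw [eL, w2L_ff] at h5
      apply h5
      show (i : ℕ) + n < j
      have : (i : ℕ) + n ≠ j := h4
      omega
    · rintro ⟨h1, h2⟩
      have hb : b = false := h1
      have h2' : (i : ℕ) + n = j := h2
      subst hb
      refine ⟨by simp, (w2L_tf n _ _).2 (by omega), ?_⟩
      rintro ⟨c, k⟩ hz h3 h4
      have hc : c = false := by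
        cases c
        · rfl
        · exact absurd ((eA _).2 rfl) hz
      subst hc
      rw [eL, w2L_tf] at h3
      rw [eL, w2L_ff] at h4
      omega
  have eDn : ∀ (j : Fin (n * n)) (z : Bool × Fin (n * n)),
      wDn _ (mkM 2 R (w2S n)) (false, j) z ↔ z.1 = true ∧ (j : ℕ) = z.2 := by
    rintro j ⟨b, k⟩
    unfold wDn
    rw [eA, eL]
    constructor
    · rintro ⟨h1, h2, h3⟩
      have hb : b = true := h1
      subst hb
      rw [w2L_ft] at h2
      refine ⟨rfl, ?_⟩
      by_contra h4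
      have h5 := h3 (true, j) ((eA _).2 rfl) ((eL _ _).2 ((w2L_ft n _ _).2 le_rfl))
      rw [eL, w2L_tt] at h5
      have : (j : ℕ) ≠ k := h4
      omega
    · rintro ⟨h1, h2⟩
      have hb : b = true := h1
      have h2' : (j : ℕ) = k := h2
      subst hb
      refine ⟨rfl, (w2L_ft n _ _).2 (by omega), ?_⟩
      rintro ⟨c, l⟩ hz h3 h4
      have hc : c = true := (eA _).1 hz
      subst hc
      rw [eL, w2L_ft] at h3
      rw [eL, w2L_tt] at h4
      omega
  have eU : ∀ i j : Fin (n * n), wU _ (mkM 2 R (w2S n)) (true, i) (true, j) ↔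
      (i : ℕ) + n = j := by
    intro i j
    constructor
    · rintro ⟨_, ⟨b, k⟩, h1, h2⟩
      rw [eUp] at h1
      have hb : b = false := h1.1
      subst hb
      rw [eDn] at h2
      have h3 : (i : ℕ) + n = k := h1.2
      have h4 : (k : ℕ) = j := h2.2
      omega
    · intro h
      exact ⟨(eA _).2 rfl, (false, j), (eUp _ _).2 ⟨rfl, h⟩, (eDn _ _).2 ⟨rfl, rfl⟩⟩
  have eP : ∀ x y, wP _ (mkM 2 R (w2S n)) x y ↔ x.1 = true ∧ y.1 = false ∧ (x.2 : ℕ) = y.2 := by
    rintro ⟨b, i⟩ ⟨c, j⟩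
    unfold wP
    rw [eA, eA, eL]
    constructor
    · rintro ⟨h1, h2, h3, h4⟩
      have hb : b = true := h1
      have hc : c = false := by
        cases c
        · rfl
        · exact absurd rfl h2
      subst hb hc
      rw [w2L_ft] at h3
      refine ⟨rfl, rfl, ?_⟩
      by_contra h5
      have h6 := h4 (false, i) (by rw [eA]; simp)
      rw [eL, eL, w2L_ff, w2L_ft] at h6
      have h7 : (i : ℕ) ≠ j := h5
      exact h6 (by omega) le_rfl
    · rintro ⟨h1, h2, h3⟩
      have hb : b = true := h1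
      have hc : c = false := h2
      have h3' : (i : ℕ) = j := h3
      subst hb hc
      refine ⟨rfl, by simp, (w2L_ft n _ _).2 (by omega), ?_⟩
      rintro ⟨d, k⟩ hz h4 h5
      have hd : d = false := by
        cases d
        · rfl
        · exact absurd ((eA _).2 rfl) hz
      subst hd
      rw [eL, w2L_ff] at h4
      rw [eL, w2L_ft] at h5
      omega
  refine ⟨⟨?_, ?_⟩, ?_⟩
  · rintro ⟨b, i⟩ hx
    have hb : b = true := (eA _).1 hx
    refine ⟨(false, i), (eP _ _).2 ⟨hb, rfl, rfl⟩, ?_⟩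
    rintro ⟨c, j⟩ h
    have h' := (eP _ _).1 h
    have h1 : c = false := h'.2.1
    have h2 : (i : ℕ) = j := h'.2.2
    subst h1
    exact Prod.ext rfl (Fin.ext h2.symm)
  · rintro ⟨b, i⟩ hx
    have hb : b = false := by
      cases b
      · rfl
      · exact absurd ((eA _).2 rfl) hx
    refine ⟨(true, i), (eP _ _).2 ⟨rfl, hb, rfl⟩, ?_⟩
    rintro ⟨c, j⟩ h
    have h' := (eP _ _).1 h
    have h1 : c = true := h'.1
    have h2 : (j : ℕ) = i := h'.2.2
    subst h1
    exact Prod.ext rfl (Fin.ext h2)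
  · have hdiv : ∀ k : Fin (n * n), (k : ℕ) / n < n := fun k => Nat.div_lt_of_lt_mul k.is_lt
    let e : {x // codeW2.dom _ (mkM 2 R (w2S n)) x} ≃ Fin n × Fin n :=
      { toFun := fun x => (⟨(x.1.2 : ℕ) % n, Nat.mod_lt _ hn0⟩, ⟨(x.1.2 : ℕ) / n, hdiv _⟩)
        invFun := fun p => ⟨(true, ⟨(p.2 : ℕ) * n + p.1, by
          have h1 := p.1.is_lt
          have h2 : (p.2 : ℕ) + 1 ≤ n := p.2.is_lt
          have h3 : ((p.2 : ℕ) + 1) * n ≤ n * n := Nat.mul_le_mul_right n h2
          rw [Nat.add_mul] at h3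
          omega⟩), (eA _).2 rfl⟩
        left_inv := by
          rintro ⟨⟨b, i⟩, hx⟩
          have hb : b = true := (eA _).1 hx
          subst hb
          apply Subtype.ext
          refine Prod.ext rfl (Fin.ext ?_)
          show (i : ℕ) / n * n + (i : ℕ) % n = i
          rw [mul_comm]
          exact Nat.div_add_mod _ _
        right_inv := by
          rintro ⟨a, b⟩
          refine Prod.ext (Fin.ext ?_) (Fin.ext ?_)
          · show ((b : ℕ) * n + a) % n = a
            rw [add_comm, Nat.add_mul_mod_self_right]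
            exact Nat.mod_eq_of_lt a.is_lt
          · show ((b : ℕ) * n + a) / n = b
            rw [add_comm, Nat.add_mul_div_right _ _ hn0, Nat.div_eq_of_lt a.is_lt, zero_add] }
    refine ⟨e, ?_, ?_⟩
    · rintro ⟨⟨b, i⟩, hx⟩ ⟨⟨c, j⟩, hy⟩
      have hb : b = true := (eA _).1 hx
      have hc : c = true := (eA _).1 hy
      subst hb hc
      show wH _ (mkM 2 R (w2S n)) (true, i) (true, j) ↔ (i : ℕ) % n + 1 = (j : ℕ) % n ∧
        (i : ℕ) / n = (j : ℕ) / n
      rw [eH]
      have d1 := Nat.div_add_mod (i : ℕ) n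
      have d2 := Nat.div_add_mod (j : ℕ) n
      have m1 := Nat.mod_lt (i : ℕ) hn0
      have m2 := Nat.mod_lt (j : ℕ) hn0
      constructor
      · rintro ⟨h1, h2⟩
        have h3 : (i : ℕ) % n + 1 < n := by
          by_contra h4
          have h5 : (i : ℕ) % n + 1 = n := by omega
          apply h2
          have h6 : (i : ℕ) + 1 = n * ((i : ℕ) / n) + n := by omega
          rw [h6, Nat.add_mod_right, Nat.mul_mod_right]
        have h7 : (j : ℕ) = ((i : ℕ) % n + 1) + n * ((i : ℕ) / n) := by omega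
        constructor
        · rw [h7, Nat.add_mul_mod_self_left, Nat.mod_eq_of_lt h3]
        · rw [h7, Nat.add_mul_div_left _ _ hn0, Nat.div_eq_of_lt h3, zero_add]
      · rintro ⟨h1, h2⟩
        rw [h2] at d1
        refine ⟨by omega, ?_⟩
        intro h3
        have h4 : (i : ℕ) + 1 = j := by omega
        rw [h4] at h3
        omega
    · rintro ⟨⟨b, i⟩, hx⟩ ⟨⟨c, j⟩, hy⟩
      have hb : b = true := (eA _).1 hx
      have hc : c = true := (eA _).1 hy
      subst hb hc
      show wU _ (mkM 2 R (w2S n)) (true, i) (true, j) ↔ (i : ℕ) % n = (j : ℕ) % n ∧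
        (i : ℕ) / n + 1 = (j : ℕ) / n
      rw [eU]
      have d1 := Nat.div_add_mod (i : ℕ) n
      have d2 := Nat.div_add_mod (j : ℕ) n
      constructor
      · intro h
        rw [← h, Nat.add_mod_right, Nat.add_div_right _ hn0]
        exact ⟨rfl, rfl⟩
      · rintro ⟨h1, h2⟩
        rw [← h2, ← h1, Nat.mul_add, Nat.mul_one] at d2
        omega

theorem t_W2 : StmtW2 := by
  refine ⟨2, codeW2, fun n hn => ?_, fun n hn => ?_⟩
  · refine ⟨Bool × Fin (n * n), inferInstance, fun _ => w2L n, w2S n, ?_, ?_⟩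
    · exact ⟨⟨fun x => w2L_irr n x, fun x y z => w2L_trans n hn x y z⟩, w2L_width n⟩
    · refine codes_w2 n hn _ fun x y => ⟨fun h => h.1, fun h => ⟨h, ?_⟩⟩
      rintro rfl
      exact w2L_irr n x h
  · refine ⟨Bool × Fin (n * n), inferInstance, fun _ x y => w2L n x y ∨ x = y, w2S n, ⟨?_, ?_⟩, ?_⟩
    · exact fun x => Or.inr rfl
    · rintro x y z (h | h) (h' | h')
      · exact Or.inl (w2L_trans n hn x y z h h')
      · exact Or.inl (h' ▸ h)
      · exact Or.inl (h ▸ h')
      · exact Or.inr (h.trans h')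
    · refine codes_w2 n hn _ fun x y => ⟨fun h => h.1.resolve_right h.2, fun h => ⟨Or.inl h, ?_⟩⟩
      rintro rfl
      exact w2L_irr n x h

end Pool.Agent.Helper20.TV2
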